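import Mathlib

/-! The shortcut form of the Collatz map: the parities of the first `k` terms determine the number modulo
`2 ^ k`, and the size of the terms in terms of the number of odd terms. -/

set_option autoImplicit false

namespace Pool.Agent.Y927.CP

/-- The shortcut map. -/
def T (n : ℕ) : ℕ := if n % 2 = 0 then n / 2 else (3 * n + 1) / 2

theorem T_even {n : ℕ} (h : n % 2 = 0) : 2 * T n = n := by
  unfold T; rw [if_pos h]; omega

theorem T_odd {n : ℕ} (h : n % 2 = 1) : 2 * T n = 3 * n + 1 := by
  unfold T; rw [if_neg (by omega)]; omega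

/-- The parities of the first `k` terms determine the number modulo `2 ^ k`. -/
theorem mod_of_par (k : ℕ) : ∀ x y : ℕ, (∀ i < k, T^[i] x % 2 = T^[i] y % 2) → x ≡ y [MOD 2 ^ k] := by
  induction k with
  | zero => intro x y _; exact Nat.modEq_one
  | succ k ih =>
    intro x y h
    have h0 : x % 2 = y % 2 := h 0 (Nat.succ_pos k)
    have h1 : T x ≡ T y [MOD 2 ^ k] := by
      apply ih
      intro i hi
      have := h (i + 1) (by omega)
      rwa [Function.iterate_succ_apply, Function.iterate_succ_apply] at this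
    have h2 : 2 * T x ≡ 2 * T y [MOD 2 ^ (k + 1)] := by
      rw [pow_succ']
      exact Nat.ModEq.mul_left' 2 h1
    rcases Nat.mod_two_eq_zero_or_one x with hx | hx
    · rw [T_even hx, T_even (h0 ▸ hx)] at h2
      exact h2
    · rw [T_odd hx, T_odd (h0 ▸ hx)] at h2
      have h3 : 3 * x ≡ 3 * y [MOD 2 ^ (k + 1)] := Nat.ModEq.add_right_cancel' 1 h2
      exact Nat.ModEq.cancel_left_of_coprime (by
        apply Nat.Coprime.pow_left
        norm_num) h3

/-- The number of the odd terms among the first `j` terms. -/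
def od (j x : ℕ) : ℕ := ∑ i ∈ Finset.range j, T^[i] x % 2

theorem od_succ (j x : ℕ) : od (j + 1) x = od j x + T^[j] x % 2 := by
  unfold od; rw [Finset.sum_range_succ]

theorem low (j x : ℕ) : 3 ^ od j x * x ≤ 2 ^ j * T^[j] x := by
  induction j with
  | zero => simp [od]
  | succ j ih =>
    rw [od_succ, Function.iterate_succ_apply']
    rcases Nat.mod_two_eq_zero_or_one (T^[j] x) with h | h
    · have h1 := T_even h
      rw [h, add_zero, pow_succ, mul_assoc, h1]
      exact ih
    · have h1 := T_odd h
      rw [h, pow_succ, pow_succ, mul_assoc (2 ^ j), h1]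
      generalize T^[j] x = z at ih
      generalize 3 ^ od j x = P at ih ⊢
      generalize 2 ^ j = Q at ih ⊢
      have e1 : P * 3 * x = 3 * (P * x) := by ring
      have e2 : Q * (3 * z + 1) = 3 * (Q * z) + Q := by ring
      rw [e1, e2]
      omega

theorem upp (j x : ℕ) : 2 ^ j * T^[j] x ≤ 3 ^ od j x * (x + 2 ^ j) := by
  induction j with
  | zero => simp [od]
  | succ j ih =>
    rw [od_succ, Function.iterate_succ_apply']
    have h3 : 1 ≤ 3 ^ od j x := Nat.one_le_pow _ _ (by norm_num)
    rcases Nat.mod_two_eq_zero_or_one (T^[j] x) with h | h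
    · have h1 := T_even h
      rw [h, add_zero, pow_succ 2 j, mul_assoc (2 ^ j), h1]
      refine ih.trans ?_
      apply Nat.mul_le_mul_left
      omega
    · have h1 := T_odd h
      rw [h, pow_succ, pow_succ, mul_assoc (2 ^ j), h1]
      have h4 : 2 ^ j ≤ 3 ^ od j x * 2 ^ j := Nat.le_mul_of_pos_left _ h3
      generalize T^[j] x = z at ih
      generalize 3 ^ od j x = P at ih h4 ⊢
      generalize 2 ^ j = Q at ih h4 ⊢
      have e1 : P * 3 * (x + Q * 2) = 3 * (P * x) + 6 * (P * Q) := by ring
      have e2 : Q * (3 * z + 1) = 3 * (Q * z) + Q := by ring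
      have e3 : P * (x + Q) = P * x + P * Q := by ring
      rw [e1, e2]
      rw [e3] at ih
      omega

theorem T_pos {n : ℕ} (h : 0 < n) : 0 < T n := by
  rcases Nat.mod_two_eq_zero_or_one n with h1 | h1
  · have := T_even h1; omega
  · have := T_odd h1; omega

/-- The sign of a parity. -/
def sgn (b : Bool) : ℝ := if b = true then 1 else -1

/-- The parities of the first `k` terms. -/
def pv (k x : ℕ) (i : Fin k) : Bool := decide (T^[(i : ℕ)] x % 2 = 1)

theorem modEq_of_pv {k x y : ℕ} (h : pv k x = pv k y) : x ≡ y [MOD 2 ^ k] := by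
  apply mod_of_par
  intro i hi
  have h1 := congrFun h ⟨i, hi⟩
  unfold pv at h1
  simp only at h1
  rcases Nat.mod_two_eq_zero_or_one (T^[i] x) with h2 | h2 <;>
    rcases Nat.mod_two_eq_zero_or_one (T^[i] y) with h3 | h3 <;>
    simp_all

/-- The walk. -/
noncomputable def S {k : ℕ} (j : ℕ) (v : Fin k → Bool) : ℝ :=
  ∑ i : Fin k, if (i : ℕ) < j then sgn (v i) else 0

theorem S_pv {k j : ℕ} (hj : j ≤ k) (x : ℕ) : S j (pv k x) = 2 * od j x - j := by
  unfold S
  have h1 : ∀ i : Fin k, (if (i : ℕ) < j then sgn (pv k x i) else 0) =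
      (fun n : ℕ => if n < j then (2 * ((T^[n] x % 2 : ℕ) : ℝ) - 1) else 0) i := by
    intro i
    simp only
    by_cases h : (i : ℕ) < j
    · rw [if_pos h, if_pos h]
      unfold sgn pv
      rcases Nat.mod_two_eq_zero_or_one (T^[(i : ℕ)] x) with h2 | h2
      · simp [h2]
      · simp [h2]; norm_num
    · rw [if_neg h, if_neg h]
  rw [Finset.sum_congr rfl (fun i _ => h1 i)]
  rw [Fin.sum_univ_eq_sum_range (fun n : ℕ => if n < j then (2 * ((T^[n] x % 2 : ℕ) : ℝ) - 1) else 0) k]
  rw [← Finset.sum_filter]
  have h2 : (Finset.range k).filter (fun n => n < j) = Finset.range j := by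
    ext n
    simp only [Finset.mem_filter, Finset.mem_range]
    omega
  rw [h2, Finset.sum_sub_distrib, ← Finset.mul_sum]
  unfold od
  push_cast
  simp

end Pool.Agent.Y927.CP
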