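import Pool.Agent.Y927.CP.A

/-! Hoeffding's inequality for the walk of the parities, by counting. -/

set_option autoImplicit false

namespace Pool.Agent.Y927.CP

open Finset

theorem sum_exp {k j : ℕ} (a : ℝ) : ∑ v : Fin k → Bool, Real.exp (a * S j v) ≤
    2 ^ k * Real.exp (a ^ 2 * k / 2) := by
  have h1 : ∀ v : Fin k → Bool, Real.exp (a * S j v) =
      ∏ i : Fin k, (fun (i : Fin k) (b : Bool) => Real.exp (a * (if (i : ℕ) < j then sgn b else 0))) i (v i) := by
    intro v
    unfold S
    rw [Finset.mul_sum, Real.exp_sum]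
  rw [Finset.sum_congr rfl (fun v _ => h1 v)]
  have h2 := (Finset.prod_univ_sum (fun _ : Fin k => (univ : Finset Bool))
    (fun (i : Fin k) (b : Bool) => Real.exp (a * (if (i : ℕ) < j then sgn b else 0)))).symm
  rw [Fintype.piFinset_univ] at h2
  rw [h2]
  have h3 : ∀ i : Fin k, ∑ b : Bool, Real.exp (a * (if (i : ℕ) < j then sgn b else 0)) ≤
      2 * Real.exp (a ^ 2 / 2) := by
    intro i
    rw [Fintype.sum_bool]
    by_cases h : (i : ℕ) < j
    · simp only [if_pos h]
      have h4 := Real.cosh_le_exp_half_sq a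
      rw [Real.cosh_eq] at h4
      unfold sgn
      simp only [if_true, Bool.false_eq_true, if_false]
      have e1 : a * 1 = a := by ring
      have e2 : a * (-1) = -a := by ring
      rw [e1, e2]
      linarith
    · simp only [if_neg h]
      have h5 : 1 ≤ Real.exp (a ^ 2 / 2) := Real.one_le_exp (by positivity)
      rw [mul_zero, Real.exp_zero]
      linarith
  have h6 : ∏ i : Fin k, ∑ b : Bool, Real.exp (a * (if (i : ℕ) < j then sgn b else 0)) ≤
      ∏ _i : Fin k, (2 * Real.exp (a ^ 2 / 2)) := by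
    apply Finset.prod_le_prod
    · intro i _
      apply Finset.sum_nonneg
      intro b _
      exact (Real.exp_pos _).le
    · intro i _
      exact h3 i
  refine h6.trans ?_
  rw [Finset.prod_const, card_univ, Fintype.card_fin, mul_pow, ← Real.exp_nat_mul]
  apply le_of_eq
  congr 2
  ring

/-- Markov's inequality. -/
theorem tail {k : ℕ} (hk : 1 ≤ k) (j : ℕ) (s : ℝ) (hs : s = 1 ∨ s = -1) {lam : ℝ} (hl : 0 ≤ lam) :
    (((univ : Finset (Fin k → Bool)).filter (fun v => lam < s * S j v)).card : ℝ) ≤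
      2 ^ k * Real.exp (-(lam ^ 2 / (2 * k))) := by
  have hk0 : (0 : ℝ) < k := by exact_mod_cast hk
  set a : ℝ := lam / k with ha
  have ha0 : 0 ≤ a := by positivity
  have h1 : ∑ v : Fin k → Bool, Real.exp ((s * a) * S j v) ≤ 2 ^ k * Real.exp ((s * a) ^ 2 * k / 2) :=
    sum_exp (s * a)
  have hss : s ^ 2 = 1 := by rcases hs with rfl | rfl <;> norm_num
  have h2 : (((univ : Finset (Fin k → Bool)).filter (fun v => lam < s * S j v)).card : ℝ) *
      Real.exp (a * lam) ≤ ∑ v : Fin k → Bool, Real.exp ((s * a) * S j v) := by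
    rw [← nsmul_eq_mul, ← Finset.sum_const]
    refine le_trans (Finset.sum_le_sum (g := fun v => Real.exp ((s * a) * S j v)) ?_)
      (Finset.sum_le_sum_of_subset_of_nonneg (Finset.filter_subset _ _) ?_)
    · intro v hv
      rw [Finset.mem_filter] at hv
      apply Real.exp_le_exp.2
      have : a * lam ≤ a * (s * S j v) := mul_le_mul_of_nonneg_left hv.2.le ha0
      linarith [this, mul_comm s a, mul_assoc a s (S j v), mul_assoc s a (S j v)]
    · intro v _ _
      exact (Real.exp_pos _).le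
  have h3 := h2.trans h1
  have h4 : (0 : ℝ) < Real.exp (a * lam) := Real.exp_pos _
  have h5 : (((univ : Finset (Fin k → Bool)).filter (fun v => lam < s * S j v)).card : ℝ) ≤
      2 ^ k * Real.exp ((s * a) ^ 2 * k / 2) / Real.exp (a * lam) := by
    rw [le_div_iff₀ h4]; exact h3
  refine h5.trans (le_of_eq ?_)
  rw [mul_div_assoc, ← Real.exp_sub]
  congr 2
  rw [mul_pow, hss, ha]
  field_simp
  ring

/-- The vectors whose walk is somewhere larger than `lam`. -/
noncomputable def Bad (k : ℕ) (lam : ℝ) : Finset (Fin k → Bool) := by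
  classical
  exact univ.filter (fun v => ∃ j ≤ k, lam < |S j v|)

theorem mem_Bad {k : ℕ} {lam : ℝ} {v : Fin k → Bool} : v ∈ Bad k lam ↔ ∃ j ≤ k, lam < |S j v| := by
  classical
  unfold Bad
  rw [Finset.mem_filter]
  simp

theorem card_Bad {k : ℕ} (hk : 1 ≤ k) {lam : ℝ} (hl : 0 ≤ lam) :
    ((Bad k lam).card : ℝ) ≤ 2 * (k + 1) * (2 ^ k * Real.exp (-(lam ^ 2 / (2 * k)))) := by
  classical
  have hsub : Bad k lam ⊆ (range (k + 1)).biUnion (fun j =>
      (univ.filter (fun v : Fin k → Bool => lam < (1 : ℝ) * S j v)) ∪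
      (univ.filter (fun v : Fin k → Bool => lam < (-1 : ℝ) * S j v))) := by
    intro v hv
    obtain ⟨j, hj, h⟩ := mem_Bad.1 hv
    rw [mem_biUnion]
    refine ⟨j, by rw [mem_range]; omega, ?_⟩
    rw [mem_union, mem_filter, mem_filter]
    rcases lt_abs.1 h with h1 | h1
    · left; exact ⟨mem_univ _, by linarith⟩
    · right; exact ⟨mem_univ _, by linarith⟩
  have h1 := Finset.card_le_card hsub
  have h2 := h1.trans Finset.card_biUnion_le
  have h3 : ((∑ j ∈ range (k + 1), ((univ.filter (fun v : Fin k → Bool => lam < (1 : ℝ) * S j v)) ∪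
      (univ.filter (fun v : Fin k → Bool => lam < (-1 : ℝ) * S j v))).card : ℕ) : ℝ) ≤
      ∑ _j ∈ range (k + 1), 2 * (2 ^ k * Real.exp (-(lam ^ 2 / (2 * k)))) := by
    push_cast
    apply Finset.sum_le_sum
    intro j _
    have h4 := Finset.card_union_le (univ.filter (fun v : Fin k → Bool => lam < (1 : ℝ) * S j v))
      (univ.filter (fun v : Fin k → Bool => lam < (-1 : ℝ) * S j v))
    have h5 := tail hk j 1 (Or.inl rfl) hl
    have h6 := tail hk j (-1) (Or.inr rfl) hl
    have h7 : (((univ.filter (fun v : Fin k → Bool => lam < (1 : ℝ) * S j v)) ∪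
      (univ.filter (fun v : Fin k → Bool => lam < (-1 : ℝ) * S j v))).card : ℝ) ≤
      ((univ.filter (fun v : Fin k → Bool => lam < (1 : ℝ) * S j v)).card : ℝ) +
      ((univ.filter (fun v : Fin k → Bool => lam < (-1 : ℝ) * S j v)).card : ℝ) := by
      exact_mod_cast h4
    linarith
  have h8 : ((Bad k lam).card : ℝ) ≤ ((∑ j ∈ range (k + 1),
      ((univ.filter (fun v : Fin k → Bool => lam < (1 : ℝ) * S j v)) ∪
      (univ.filter (fun v : Fin k → Bool => lam < (-1 : ℝ) * S j v))).card : ℕ) : ℝ) := by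
    exact_mod_cast h2
  refine h8.trans (h3.trans (le_of_eq ?_))
  rw [Finset.sum_const, card_range, nsmul_eq_mul]
  push_cast
  ring

end Pool.Agent.Y927.CP
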