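import Pool.Agent.Y927.CP.B

/-! Counting the integers `n` of an interval for which a power of two divides `g n`, and those for
which the parities of `f n` are prescribed. -/

set_option autoImplicit false

namespace Pool.Agent.Y927.CP

open Finset Polynomial

theorem vander {g : ℤ[X]} {m : ℕ} (hm : g.natDegree = m) {D : ℤ} (x : Fin (m + 1) → ℤ)
    (hD : ∀ i, D ∣ g.eval (x i)) :
    D ∣ (∏ i : Fin (m + 1), ∏ l ∈ Ioi i, (x l - x i)) * g.leadingCoeff := by
  rw [← Matrix.det_vandermonde]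
  set V := Matrix.vandermonde x with hV
  set c : Fin (m + 1) → ℤ := fun l => g.coeff l with hc
  have h1 : ∀ i, V.mulVec c i = g.eval (x i) := by
    intro i
    rw [Polynomial.eval_eq_sum_range' (n := m + 1) (by omega), ← Fin.sum_univ_eq_sum_range
      (fun l => g.coeff l * x i ^ l)]
    simp only [Matrix.mulVec, dotProduct, hV, Matrix.vandermonde_apply, hc]
    apply Finset.sum_congr rfl
    intro l _
    ring
  have h2 : V.adjugate.mulVec (V.mulVec c) = V.det • c := by
    rw [Matrix.mulVec_mulVec, Matrix.adjugate_mul, Matrix.smul_mulVec, Matrix.one_mulVec]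
  have h3 := congrFun h2 (Fin.last m)
  have h4 : V.det * g.leadingCoeff = V.adjugate.mulVec (V.mulVec c) (Fin.last m) := by
    rw [h3]
    simp only [Pi.smul_apply, smul_eq_mul, hc, Fin.val_last]
    rw [Polynomial.leadingCoeff, hm]
  rw [h4]
  simp only [Matrix.mulVec, dotProduct]
  apply Finset.dvd_sum
  intro i _
  apply Dvd.dvd.mul_left
  have := h1 i
  simp only [Matrix.mulVec, dotProduct] at this
  rw [this]
  exact hD i

theorem vander_bound {g : ℤ[X]} (hg : g ≠ 0) {m : ℕ} (hm : g.natDegree = m) {D : ℤ} (x : Fin (m + 1) → ℤ)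
    (hx : Function.Injective x) {L : ℤ} (hL : 1 ≤ L) (hxL : ∀ i l, |x l - x i| ≤ L)
    (hD : ∀ i, D ∣ g.eval (x i)) : D ≤ L ^ ((m + 1) * (m + 1)) * |g.leadingCoeff| := by
  have h1 := vander hm x hD
  set P := ∏ i : Fin (m + 1), ∏ l ∈ Ioi i, (x l - x i) with hP
  have hP0 : P ≠ 0 := by
    rw [hP, Finset.prod_ne_zero_iff]
    intro i _
    rw [Finset.prod_ne_zero_iff]
    intro l hl
    rw [Finset.mem_Ioi] at hl
    rw [sub_ne_zero]
    intro h
    exact hl.ne' (hx h)
  have hlc : g.leadingCoeff ≠ 0 := by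
    rwa [Ne, Polynomial.leadingCoeff_eq_zero]
  have h2 : P * g.leadingCoeff ≠ 0 := mul_ne_zero hP0 hlc
  have h3 : D ≤ |P * g.leadingCoeff| := by
    have h4 : D ∣ |P * g.leadingCoeff| := (dvd_abs _ _).2 h1
    exact Int.le_of_dvd (abs_pos.2 h2) h4
  have h5 : |P| ≤ L ^ ((m + 1) * (m + 1)) := by
    rw [hP, Finset.abs_prod]
    calc ∏ i : Fin (m + 1), |∏ l ∈ Ioi i, (x l - x i)| ≤ ∏ _i : Fin (m + 1), L ^ (m + 1) := by
          apply Finset.prod_le_prod
          · intro i _; exact abs_nonneg _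
          · intro i _
            rw [Finset.abs_prod]
            calc ∏ l ∈ Ioi i, |x l - x i| ≤ ∏ _l ∈ Ioi i, L := by
                  apply Finset.prod_le_prod
                  · intro l _; exact abs_nonneg _
                  · intro l _; exact hxL i l
              _ = L ^ (Ioi i).card := by rw [Finset.prod_const]
              _ ≤ L ^ (m + 1) := by
                  apply pow_le_pow_right₀ hL
                  calc (Ioi i).card ≤ (univ : Finset (Fin (m + 1))).card := Finset.card_le_univ _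
                    _ = m + 1 := by rw [card_univ, Fintype.card_fin]
      _ = L ^ ((m + 1) * (m + 1)) := by
          rw [Finset.prod_const, card_univ, Fintype.card_fin, ← pow_mul]
  calc D ≤ |P * g.leadingCoeff| := h3
    _ = |P| * |g.leadingCoeff| := abs_mul _ _
    _ ≤ L ^ ((m + 1) * (m + 1)) * |g.leadingCoeff| := mul_le_mul_of_nonneg_right h5 (abs_nonneg _)

theorem block {g : ℤ[X]} (hg : g ≠ 0) {m : ℕ} (hm : g.natDegree = m) {D : ℤ} {L : ℕ} (hL : 1 ≤ L)
    (hD : (L : ℤ) ^ ((m + 1) * (m + 1)) * |g.leadingCoeff| < D) (A : Finset ℕ)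
    (hA : ∀ n ∈ A, ∀ n' ∈ A, (n : ℤ) - n' ≤ L) (hAD : ∀ n ∈ A, D ∣ g.eval (n : ℤ)) : A.card ≤ m := by
  by_contra hcon
  push Not at hcon
  obtain ⟨B, hB, hBc⟩ := Finset.exists_subset_card_eq (show m + 1 ≤ A.card by omega)
  have h1 := vander_bound hg hm (D := D) (fun i => ((B.orderEmbOfFin hBc i : ℕ) : ℤ)) (by
    intro i l h
    simp only [Nat.cast_inj] at h
    exact (B.orderEmbOfFin hBc).injective h) (L := L) (by exact_mod_cast hL) (by
    intro i l
    have hi : B.orderEmbOfFin hBc i ∈ A := hB (Finset.orderEmbOfFin_mem _ _ _)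
    have hl : B.orderEmbOfFin hBc l ∈ A := hB (Finset.orderEmbOfFin_mem _ _ _)
    rw [abs_le]
    constructor
    · have := hA _ hi _ hl
      linarith
    · exact hA _ hl _ hi) (by
    intro i
    exact hAD _ (hB (Finset.orderEmbOfFin_mem _ _ _)))
  linarith

/-- The number of the `n` in `(X, X + N]` with `D ∣ g n`. -/
theorem count1 {g : ℤ[X]} (hg : g ≠ 0) {m : ℕ} (hm : g.natDegree = m) {D : ℤ} {L : ℕ} (hL : 1 ≤ L)
    (hD : (L : ℤ) ^ ((m + 1) * (m + 1)) * |g.leadingCoeff| < D) (X N : ℕ) :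
    ((Ioc X (X + N)).filter (fun n : ℕ => D ∣ g.eval (n : ℤ))).card ≤ m * (N / L + 1) := by
  classical
  have h1 := Finset.card_le_mul_card_image_of_maps_to
    (s := (Ioc X (X + N)).filter (fun n : ℕ => D ∣ g.eval (n : ℤ)))
    (t := range (N / L + 1)) (f := fun n => (n - X - 1) / L) (by
      intro n hn
      rw [mem_filter, mem_Ioc] at hn
      rw [mem_range]
      have h2 : n - X - 1 ≤ N := by omega
      have h3 := Nat.div_le_div_right (c := L) h2
      omega) m (by
      intro b _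
      apply block hg hm hL hD
      · intro n hn n' hn'
        rw [mem_filter, mem_filter, mem_Ioc] at hn hn'
        have h2 := hn.2
        have h3 := hn'.2
        have h4 := Nat.div_add_mod (n - X - 1) L
        have h5 := Nat.div_add_mod (n' - X - 1) L
        rw [h2] at h4
        rw [h3] at h5
        have h6 := Nat.mod_lt (n - X - 1) (show 0 < L by omega)
        have h7 := Nat.mod_lt (n' - X - 1) (show 0 < L by omega)
        generalize L * b = q at h4 h5
        omega
      · intro n hn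
        rw [mem_filter, mem_filter] at hn
        exact hn.1.2)
  rw [card_range] at h1
  exact h1

theorem pow_dvd_or {p c a : ℕ} (hp : p.Prime) {x y : ℤ} (h : ((p : ℤ) ^ c) ∣ x * y) (hac : a ≤ c) :
    ((p : ℤ) ^ (c - a)) ∣ x ∨ ((p : ℤ) ^ a) ∣ y := by
  have h1 : p ^ c ∣ x.natAbs * y.natAbs := by
    rw [← Int.natAbs_mul]
    have := Int.natAbs_dvd_natAbs.2 h
    rwa [Int.natAbs_pow, Int.natAbs_natCast] at this
  obtain ⟨k₁, k₂, hk1, hk2, hk⟩ := (Nat.dvd_mul).1 h1
  have h2 : k₁ ∣ p ^ c := ⟨k₂, hk.symm⟩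
  have h3 : k₂ ∣ p ^ c := ⟨k₁, by rw [mul_comm]; exact hk.symm⟩
  obtain ⟨s, hs, rfl⟩ := (Nat.dvd_prime_pow hp).1 h2
  obtain ⟨t, ht, rfl⟩ := (Nat.dvd_prime_pow hp).1 h3
  rw [← pow_add] at hk
  have h4 : s + t = c := Nat.pow_right_injective hp.two_le hk
  rcases le_or_gt (c - a) s with h5 | h5
  · left
    have h6 : p ^ (c - a) ∣ x.natAbs := (pow_dvd_pow p h5).trans hk1
    have := Int.natCast_dvd.2 h6
    rwa [Nat.cast_pow] at this
  · right
    have h6 : p ^ a ∣ y.natAbs := (pow_dvd_pow p (by omega)).trans hk2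
    have := Int.natCast_dvd.2 h6
    rwa [Nat.cast_pow] at this

/-- Two integers `n < n'` close to each other, congruent modulo `2 ^ j`, with congruent values. -/
theorem rigid {f : ℤ[X]} {k j : ℕ} (hjk : j ≤ k) {n n' : ℕ} (hlt : n < n') (hclose : n' - n < 2 ^ (k - j))
    (hj : ((2 : ℤ) ^ j) ∣ (n' : ℤ) - n) (hf : ((2 : ℤ) ^ k) ∣ f.eval (n' : ℤ) - f.eval (n : ℤ)) :
    ((2 : ℤ) ^ j) ∣ f.derivative.eval (n : ℤ) := by
  obtain ⟨r, hr⟩ := f.binomExpansion (n : ℤ) ((n' : ℤ) - n)
  have e1 : (n : ℤ) + ((n' : ℤ) - n) = n' := by ring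
  rw [e1] at hr
  set h : ℤ := (n' : ℤ) - n with hh
  have h1 : f.eval (n' : ℤ) - f.eval (n : ℤ) = h * (f.derivative.eval (n : ℤ) + r * h) := by
    rw [hr]; ring
  rw [h1] at hf
  rcases pow_dvd_or (p := 2) (a := j) Nat.prime_two (by exact_mod_cast hf) hjk with h2 | h2
  · exfalso
    have h3 : (0 : ℤ) < h := by rw [hh]; omega
    have h4 := Int.le_of_dvd h3 h2
    have h5 : h < ((2 ^ (k - j) : ℕ) : ℤ) := by
      rw [hh]; omega
    push_cast at h4 h5
    linarith
  · have h2' : ((2 : ℤ) ^ j) ∣ f.derivative.eval (n : ℤ) + r * h := by exact_mod_cast h2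
    have h3 : ((2 : ℤ) ^ j) ∣ r * h := Dvd.dvd.mul_left hj r
    have h4 := dvd_sub h2' h3
    have e2 : f.derivative.eval (n : ℤ) + r * h - r * h = f.derivative.eval (n : ℤ) := by ring
    rwa [e2] at h4

/-- The number of the `n` in `(X, X + N]` such that `2 ^ j` does not divide `f' n` and the parities of
`f n` are in `V`. -/
theorem count2 {f : ℤ[X]} {k j X N : ℕ} (hjk : j ≤ k) (hN : N ≤ 2 ^ (k + 1)) (V : Finset (Fin k → Bool)) :
    ((Ioc X (X + N)).filter (fun n : ℕ => ¬ ((2 : ℤ) ^ j) ∣ f.derivative.eval (n : ℤ) ∧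
      0 < f.eval (n : ℤ) ∧ pv k (f.eval (n : ℤ)).toNat ∈ V)).card ≤
      V.card * (2 ^ j * (2 ^ (j + 1) + 1)) := by
  classical
  have h0 : (V ×ˢ (range (2 ^ j) ×ˢ range (2 ^ (j + 1) + 1))).card =
      V.card * (2 ^ j * (2 ^ (j + 1) + 1)) := by
    rw [card_product, card_product, card_range, card_range]
  rw [← h0]
  apply Finset.card_le_card_of_injOn
    (fun n : ℕ => (pv k (f.eval (n : ℤ)).toNat, (n % 2 ^ j, (n - X - 1) / 2 ^ (k - j))))
  · intro n hn
    rw [mem_coe, mem_filter, mem_Ioc] at hn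
    obtain ⟨⟨hn1, hn2⟩, -, -, hn5⟩ := hn
    rw [mem_coe, mem_product, mem_product]
    refine ⟨hn5, ?_, ?_⟩
    · rw [mem_range]
      exact Nat.mod_lt _ (by positivity)
    · rw [mem_range]
      have h2 : n - X - 1 ≤ 2 ^ (k - j) * 2 ^ (j + 1) := by
        rw [← pow_add]
        have : k - j + (j + 1) = k + 1 := by omega
        rw [this]
        omega
      have h3 := Nat.div_le_div_right (c := 2 ^ (k - j)) h2
      rw [Nat.mul_div_cancel_left _ (by positivity)] at h3
      exact Nat.lt_succ_of_le h3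
  · intro n hn n' hn' heq
    rw [mem_coe, mem_filter, mem_Ioc] at hn hn'
    simp only [Prod.mk.injEq] at heq
    obtain ⟨e1, e2, e3⟩ := heq
    have hmod : ((2 : ℤ) ^ k) ∣ f.eval (n' : ℤ) - f.eval (n : ℤ) := by
      have h1 := modEq_of_pv e1
      have h2 := (Nat.modEq_iff_dvd.1 h1)
      rw [Int.toNat_of_nonneg hn'.2.2.1.le, Int.toNat_of_nonneg hn.2.2.1.le] at h2
      exact_mod_cast h2
    have hmodj : ((2 : ℤ) ^ j) ∣ (n' : ℤ) - n := by
      have h2 := (Nat.modEq_iff_dvd.1 (show n ≡ n' [MOD 2 ^ j] from e2))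
      exact_mod_cast h2
    have hblock : ∀ a b : ℕ, X < a → X < b → (a - X - 1) / 2 ^ (k - j) = (b - X - 1) / 2 ^ (k - j) →
        a < b → b - a < 2 ^ (k - j) := by
      intro a b ha hb hab hlt
      have h4 := Nat.div_add_mod (a - X - 1) (2 ^ (k - j))
      have h5 := Nat.div_add_mod (b - X - 1) (2 ^ (k - j))
      have h7 := Nat.mod_lt (b - X - 1) (show 0 < 2 ^ (k - j) by positivity)
      rw [hab] at h4
      generalize 2 ^ (k - j) * ((b - X - 1) / 2 ^ (k - j)) = q at h4 h5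
      omega
    rcases lt_trichotomy n n' with h | h | h
    · exfalso
      exact hn.2.1 (rigid hjk h (hblock n n' hn.1.1 hn'.1.1 e3 h) hmodj hmod)
    · exact h
    · exfalso
      exact hn'.2.1 (rigid hjk h (hblock n' n hn'.1.1 hn.1.1 e3.symm h)
        (by have := (dvd_neg.2 hmodj); rwa [neg_sub] at this)
        (by have := (dvd_neg.2 hmod); rwa [neg_sub] at this))

end Pool.Agent.Y927.CP
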